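import Mathlib

set_option autoImplicit false

namespace Pool.Agent.Results.MP_42e384_co.Uniform

/-- The Whitney number (of the second kind) `W k`: the number of flats of rank `k`. -/
noncomputable def whitney {α : Type} (M : Matroid α) (k : ℕ) : ℕ :=
  {F : Set α | M.IsFlat F ∧ M.eRk F = k}.ncard

/-- The uniform matroid of rank `r` on `n` elements (for `r ≤ n`). -/
def U (r n : ℕ) : Matroid (Fin n) :=
  (IndepMatroid.ofFinite (E := Set.univ) (Set.toFinite _) (fun I => I.ncard ≤ r)
    (by simp)
    (fun I J hJ hIJ => (Set.ncard_le_ncard hIJ (Set.toFinite _)).trans hJ)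
    (fun I J hI hJ h => by
      obtain ⟨e, he, he'⟩ := Set.exists_mem_notMem_of_ncard_lt_ncard h (Set.toFinite _)
      refine ⟨e, he, he', ?_⟩
      rw [Set.ncard_insert_of_notMem he' (Set.toFinite _)]
      omega)
    (fun I _ => Set.subset_univ I)).matroid

theorem U_indep {r n : ℕ} (I : Set (Fin n)) : (U r n).Indep I ↔ I.ncard ≤ r := Iff.rfl

theorem U_E (r n : ℕ) : (U r n).E = Set.univ := rfl

theorem isBasis {r n : ℕ} {X : Set (Fin n)} {I : Set (Fin n)} (hI : (U r n).IsBasis I X) :
    I.ncard = min r X.ncard := by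
  have h1 : I.ncard ≤ r := hI.indep
  have h2 : I.ncard ≤ X.ncard := Set.ncard_le_ncard hI.subset (Set.toFinite _)
  apply le_antisymm (le_min h1 h2)
  by_contra hcon
  push Not at hcon
  obtain ⟨h3, h4⟩ := lt_min_iff.1 hcon
  obtain ⟨e, he, he'⟩ := Set.exists_mem_notMem_of_ncard_lt_ncard h4 (Set.toFinite _)
  have h5 : (U r n).Indep (insert e I) := by
    rw [U_indep, Set.ncard_insert_of_notMem he' (Set.toFinite _)]
    omega
  have := hI.eq_of_subset_indep h5 (Set.subset_insert e I) (Set.insert_subset he hI.subset)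
  exact he' (this ▸ Set.mem_insert e I)

theorem eRk {r n : ℕ} (X : Set (Fin n)) : (U r n).eRk X = ((min r X.ncard : ℕ) : ℕ∞) := by
  obtain ⟨I, hI⟩ := (U r n).exists_isBasis X (by rw [U_E]; exact Set.subset_univ _)
  rw [← hI.encard_eq_eRk, ← isBasis hI, (Set.toFinite I).cast_ncard_eq]

theorem isFlat {r n : ℕ} (X : Set (Fin n)) (h : X.ncard < r) : (U r n).IsFlat X := by
  have hX : (U r n).Indep X := by rw [U_indep]; exact h.le
  rw [Matroid.isFlat_iff_closure_eq]
  apply Set.Subset.antisymm _ ((U r n).subset_closure X (by rw [U_E]; exact Set.subset_univ _))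
  intro e he
  by_contra hne
  rw [hX.mem_closure_iff_of_notMem hne] at he
  apply he.not_indep
  rw [U_indep, Set.ncard_insert_of_notMem hne (Set.toFinite _)]
  omega

theorem whitney_U {r n k : ℕ} (hk : k < r) : whitney (U r n) k = n.choose k := by
  have h : {F : Set (Fin n) | (U r n).IsFlat F ∧ (U r n).eRk F = k} =
      (fun s : Finset (Fin n) => (s : Set (Fin n))) ''
        ((Finset.powersetCard k (Finset.univ : Finset (Fin n)) : Finset (Finset (Fin n))) :
          Set (Finset (Fin n))) := by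
    ext F
    simp only [Set.mem_setOf_eq, Set.mem_image, SetLike.mem_coe, Finset.mem_powersetCard]
    constructor
    · rintro ⟨_, h2⟩
      rw [eRk] at h2
      have h3 : min r F.ncard = k := by exact_mod_cast h2
      have h4 : F.ncard = k := by omega
      refine ⟨(Set.toFinite F).toFinset, ⟨Finset.subset_univ _, ?_⟩, by simp⟩
      rw [← Set.ncard_eq_toFinset_card F (Set.toFinite F)]
      exact h4
    · rintro ⟨s, ⟨_, hs⟩, rfl⟩
      have h5 : (s : Set (Fin n)).ncard = k := by rw [Set.ncard_coe_finset, hs]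
      refine ⟨isFlat _ (by omega), ?_⟩
      rw [eRk, h5]
      congr 1
      omega
  unfold whitney
  rw [h, Set.ncard_image_of_injective _ Finset.coe_injective, Set.ncard_coe_finset,
    Finset.card_powersetCard, Finset.card_univ, Fintype.card_fin]

theorem rank_U {r n : ℕ} (h : r ≤ n) : (U r n).eRank = r := by
  rw [← Matroid.eRk_ground, U_E, eRk, Set.ncard_univ, Nat.card_eq_fintype_card, Fintype.card_fin]
  congr 1
  omega

/-- For every rank `r ≥ 4` and every `2 ≤ k ≤ r - 2`, the uniform matroid of rank `r` on any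
number `n > r` of elements has `ρ_k` smaller than the free matroid of rank `r`. -/
theorem main {r n k : ℕ} (hk : 2 ≤ k) (hkr : k + 2 ≤ r) (hn : r < n) :
    whitney (U r n) k ^ 2 * (k * (r - k)) <
      (k + 1) * (r - k + 1) * (whitney (U r n) (k - 1) * whitney (U r n) (k + 1)) := by
  rw [whitney_U (by omega), whitney_U (by omega), whitney_U (by omega)]
  obtain ⟨j, rfl⟩ : ∃ j, k = j + 1 := ⟨k - 1, by omega⟩
  obtain ⟨a, rfl⟩ : ∃ a, r = j + 1 + a := ⟨r - (j + 1), by omega⟩
  obtain ⟨b, rfl⟩ : ∃ b, n = j + 1 + a + b + 1 := ⟨n - (j + 1 + a) - 1, by omega⟩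
  have e1 : j + 1 + a - (j + 1) = a := by omega
  have e2 : j + 1 - 1 = j := by omega
  rw [e1, e2]
  set N := j + 1 + a + b + 1 with hN
  -- C(N, j+1) * (j+1) = C(N, j) * (N - j), C(N, j+2) * (j+2) = C(N, j+1) * (N - (j+1))
  have h1 : N.choose (j + 1) * (j + 1) = N.choose j * (N - j) := Nat.choose_succ_right_eq N j
  have h2 : N.choose (j + 1 + 1) * (j + 1 + 1) = N.choose (j + 1) * (N - (j + 1)) :=
    Nat.choose_succ_right_eq N (j + 1)
  have e3 : N - j = a + b + 2 := by omega
  have e4 : N - (j + 1) = a + b + 1 := by omega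
  rw [e3] at h1
  rw [e4] at h2
  have hpos : 0 < N.choose (j + 1) := Nat.choose_pos (by omega)
  have hpos' : 0 < N.choose j := Nat.choose_pos (by omega)
  set x := N.choose (j + 1)
  set y := N.choose j
  set z := N.choose (j + 1 + 1)
  -- goal: x^2 * ((j+1) * a) < (j+2) * (a+1) * (y * z)
  have e5 : (j + 1 + 1) * (a + 1) * (y * z) = y * (a + 1) * (z * (j + 1 + 1)) := by ring
  rw [e5, h2]
  have e6 : x ^ 2 * ((j + 1) * a) = x * a * (x * (j + 1)) := by ring
  rw [e6, h1]
  have e7 : y * (a + 1) * (x * (a + b + 1)) = x * y * ((a + 1) * (a + b + 1)) := by ring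
  have e8 : x * a * (y * (a + b + 2)) = x * y * (a * (a + b + 2)) := by ring
  rw [e7, e8]
  apply Nat.mul_lt_mul_of_pos_left _ (Nat.mul_pos hpos hpos')
  nlinarith

/-- The disproof of Q1, first in its general form (every rank `r ≥ 4`, every `2 ≤ k ≤ r - 2`, with
every uniform matroid of rank `r` that is not free), then as the negation of the universal
statement over all finite matroids, in terms of the ratio `ρ_k` as a rational number. -/
theorem result :
    (∀ r n k : ℕ, 2 ≤ k → k + 2 ≤ r → r < n → (U r n).eRank = r ∧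
      whitney (U r n) k ^ 2 * (k * (r - k)) <
        (k + 1) * (r - k + 1) * (whitney (U r n) (k - 1) * whitney (U r n) (k + 1))) ∧
    ¬ ∀ (r k : ℕ), 3 ≤ r → 2 ≤ k → k ≤ r - 1 → ∀ (α : Type) [Finite α] (M : Matroid α),
      M.eRank = r →
      (((k : ℚ) + 1) * (r - k + 1)) / (k * (r - k)) ≤
        (whitney M k : ℚ) ^ 2 / (whitney M (k - 1) * whitney M (k + 1)) := by
  refine ⟨fun r n k h1 h2 h3 => ⟨rank_U h3.le, main h1 h2 h3⟩, fun h => ?_⟩
  have h1 := h 4 2 (by norm_num) le_rfl (by norm_num) (Fin 5) (U 4 5) (rank_U (by norm_num))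
  rw [whitney_U (by norm_num), whitney_U (by norm_num), whitney_U (by norm_num)] at h1
  norm_num [Nat.choose] at h1

end Pool.Agent.Results.MP_42e384_co.Uniform
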